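import Pool.Graph.R_seed8.H120R3.CaGeo

set_option autoImplicit false

/-!
# One-parameter families of convex surfaces near the round sphere

Adapted from the library module `H120R3/CaGeo.lean` (theorem `geo`): all small parameters, convexity, and the converse for
umbilics.
-/

namespace Pool.Agent.H690.CA

open Real Filter Topology Set
open scoped ContDiff RealInnerProductSpace NNReal

variable {E : Type*} [NormedAddCommGroup E] [InnerProductSpace ℝ E] [FiniteDimensional ℝ E]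

/-- the diffeomorphism `id + ε g` and the function `|Φ⁻¹ x|² - 1` -/
structure Fam (g : E → E) (ε : ℝ) (F : E → ℝ) (Φ : E ≃ₜ E) (D : E → E →L[ℝ] E) : Prop where
  Fs : ContDiff ℝ ∞ F
  F_eq : ∀ x, F x = ‖Φ.symm x‖ ^ 2 - 1
  Φ_eq : ∀ y, Φ y = y + ε • g y
  D_eq : ∀ x v, D x v = v + ε • fderiv ℝ g x v
  dΦ : ∀ x, HasFDerivAt Φ (D x) x
  low : ∀ x v, ‖v‖ ≤ 2 * ‖D x v‖
  surj : ∀ x, Function.Surjective (D x)

theorem exists_fam {g : E → E} (hg : ContDiff ℝ ∞ g) {C : ℝ≥0} (hC : LipschitzWith C g) {ε : ℝ}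
    (hε0 : 0 < ε) (hεC : ε * C ≤ 1 / 2) : ∃ F Φ D, Fam g ε F Φ D := by
  set φ : E → E := fun y => y + ε • g y with hφ
  have hgd : ∀ x, HasFDerivAt g (fderiv ℝ g x) x := fun x =>
    (hg.differentiable (by simp) x).hasFDerivAt
  have hφs : ContDiff ℝ ∞ φ := contDiff_id.add (contDiff_const.smul hg)
  have happ : ApproximatesLinearOn φ ((ContinuousLinearEquiv.refl ℝ E : E ≃L[ℝ] E) : E →L[ℝ] E) univ (1 / 2) := by
    intro x _ y _
    have h1 : φ x - φ y - ((ContinuousLinearEquiv.refl ℝ E : E ≃L[ℝ] E) : E →L[ℝ] E) (x - y)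
        = ε • (g x - g y) := by
      simp only [hφ, ContinuousLinearEquiv.coe_refl, ContinuousLinearMap.coe_id', id_eq, smul_sub]
      abel
    rw [h1, norm_smul, Real.norm_of_nonneg hε0.le]
    have h2 : ‖g x - g y‖ ≤ C * ‖x - y‖ := by
      have := hC.dist_le_mul x y
      rwa [dist_eq_norm, dist_eq_norm] at this
    calc ε * ‖g x - g y‖ ≤ ε * (C * ‖x - y‖) := mul_le_mul_of_nonneg_left h2 hε0.le
      _ = (ε * C) * ‖x - y‖ := by ring
      _ ≤ (1 / 2) * ‖x - y‖ := mul_le_mul_of_nonneg_right hεC (norm_nonneg _)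
      _ = _ := by norm_num
  have hcc : Subsingleton E ∨ (1 / 2 : ℝ≥0) <
      ‖((ContinuousLinearEquiv.refl ℝ E : E ≃L[ℝ] E).symm : E →L[ℝ] E)‖₊⁻¹ := by
    rcases subsingleton_or_nontrivial E with h | h
    · exact Or.inl h
    · right
      have e : ‖((ContinuousLinearEquiv.refl ℝ E : E ≃L[ℝ] E).symm : E →L[ℝ] E)‖₊ = 1 := by
        have : ((ContinuousLinearEquiv.refl ℝ E : E ≃L[ℝ] E).symm : E →L[ℝ] E) = ContinuousLinearMap.id ℝ E := rfl
        rw [this, ← NNReal.coe_inj, coe_nnnorm, ContinuousLinearMap.norm_id]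
        rfl
      rw [e, inv_one]
      exact NNReal.coe_lt_coe.1 (by norm_num)
  set Φ : E ≃ₜ E := happ.toHomeomorph φ hcc with hΦ
  have hΦa : ∀ x, Φ x = φ x := fun x => rfl
  obtain ⟨D, hD⟩ : ∃ D : E → E →L[ℝ] E, D = fun x => ContinuousLinearMap.id ℝ E +
      ε • (fderiv ℝ g x) := ⟨_, rfl⟩
  have hDa : ∀ x v, D x v = v + ε • fderiv ℝ g x v := by
    intro x v; rw [hD]; rfl
  have hφd : ∀ x, HasFDerivAt φ (D x) x := by
    intro x
    rw [hD]
    exact (hasFDerivAt_id x).add ((hgd x).const_smul ε)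
  have hlow : ∀ x v, ‖v‖ ≤ 2 * ‖D x v‖ := by
    intro x v
    have h1 : ‖fderiv ℝ g x‖ ≤ C := norm_fderiv_le_of_lipschitz ℝ hC
    have h3 : ‖fderiv ℝ g x v‖ ≤ C * ‖v‖ := (fderiv ℝ g x).le_of_opNorm_le h1 v
    have h4 : v = D x v - ε • fderiv ℝ g x v := by
      rw [hDa]
      abel
    have h5 : ‖v‖ ≤ ‖D x v‖ + ε * ‖fderiv ℝ g x v‖ := by
      have h6 := norm_sub_le (D x v) (ε • fderiv ℝ g x v)
      rw [← h4, norm_smul, Real.norm_of_nonneg hε0.le] at h6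
      exact h6
    have h7 : ε * ‖fderiv ℝ g x v‖ ≤ (1 / 2) * ‖v‖ := by
      calc ε * ‖fderiv ℝ g x v‖ ≤ ε * (C * ‖v‖) := mul_le_mul_of_nonneg_left h3 hε0.le
        _ = (ε * C) * ‖v‖ := by ring
        _ ≤ (1 / 2) * ‖v‖ := mul_le_mul_of_nonneg_right hεC (norm_nonneg _)
    linarith
  have hinj : ∀ x, Function.Injective (D x) := by
    intro x
    rw [injective_iff_map_eq_zero]
    intro v hv
    have := hlow x v
    rw [hv, norm_zero, mul_zero] at this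
    exact norm_eq_zero.1 (le_antisymm this (norm_nonneg _))
  set De : E → E ≃L[ℝ] E := fun x =>
    (LinearEquiv.ofInjectiveEndo (D x : E →ₗ[ℝ] E) (hinj x)).toContinuousLinearEquiv with hDe
  have hDe_eq : ∀ x, ((De x : E ≃L[ℝ] E) : E →L[ℝ] E) = D x := by
    intro x
    ext v
    rfl
  have hsurj : ∀ x, Function.Surjective (D x) := by
    intro x w
    refine ⟨(De x).symm w, ?_⟩
    have : D x ((De x).symm w) = (De x) ((De x).symm w) := by
      rw [← hDe_eq x]; rfl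
    rw [this, ContinuousLinearEquiv.apply_symm_apply]
  have hsymm : ContDiff ℝ ∞ (Φ.symm : E → E) := by
    apply Φ.contDiff_symm (f₀' := De)
    · intro a
      rw [hDe_eq a]
      exact hφd a
    · exact hφs
  exact ⟨fun x => ‖Φ.symm x‖ ^ 2 - 1, Φ, D, (hsymm.norm_sq ℝ).sub contDiff_const, fun x => rfl,
    fun y => rfl, hDa, hφd, hlow, hsurj⟩

namespace Fam

variable {g : E → E} {ε : ℝ} {F : E → ℝ} {Φ : E ≃ₜ E} {D : E → E →L[ℝ] E}

theorem dF (H : Fam g ε F Φ D) (x : E) : HasFDerivAt F (fderiv ℝ F x) x :=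
  (H.Fs.differentiable (by simp) x).hasFDerivAt

theorem ddF (H : Fam g ε F Φ D) (x : E) :
    HasFDerivAt (fderiv ℝ F) (fderiv ℝ (fderiv ℝ F) x) x :=
  ((H.Fs.fderiv_right (m := ∞) (by simp)).differentiable (by simp) x).hasFDerivAt

theorem FΦ (H : Fam g ε F Φ D) (y : E) : F (Φ y) = ‖y‖ ^ 2 - 1 := by
  rw [H.F_eq, Homeomorph.symm_apply_apply]

theorem chain (H : Fam g ε F Φ D) (y v : E) : fderiv ℝ F (Φ y) (D y v) = 2 * ⟪y, v⟫ := by
  have h1 : HasFDerivAt (fun y => F (Φ y)) ((fderiv ℝ F (Φ y)).comp (D y)) y :=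
    (H.dF (Φ y)).comp y (H.dΦ y)
  have h2 : (fun y => F (Φ y)) = fun y => ‖y‖ ^ 2 - 1 := funext H.FΦ
  rw [h2] at h1
  have h3 : HasFDerivAt (fun y : E => ‖y‖ ^ 2 - 1) (2 • (innerSL ℝ y)) y :=
    (hasStrictFDerivAt_norm_sq y).hasFDerivAt.sub_const 1
  have h4 := congrArg (fun L : E →L[ℝ] ℝ => L v) (h1.unique h3)
  simpa using h4

theorem comp2 (H : Fam g ε F Φ D) (y : E) : HasFDerivAt (fun x' => fderiv ℝ F (Φ x'))
    ((fderiv ℝ (fderiv ℝ F) (Φ y)).comp (D y)) y := (H.ddF (Φ y)).comp y (H.dΦ y)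

theorem d_inner (v y : E) : HasFDerivAt (fun x' : E => 2 * ⟪x', v⟫) (2 • (innerSL ℝ v)) y := by
  have h5 : HasFDerivAt (fun x' : E => innerSL ℝ v x') (innerSL ℝ v) y := (innerSL ℝ v).hasFDerivAt
  have h6 := h5.const_mul (2:ℝ)
  have h7 : (fun x' : E => 2 * innerSL ℝ v x') = fun x' : E => 2 * ⟪x', v⟫ := by
    funext x'
    rw [innerSL_apply_apply, real_inner_comm]
  rw [h7] at h6
  refine h6.congr_fderiv ?_
  ext w
  simp

theorem gb (H : Fam g ε F Φ D) (y z : E) : |fderiv ℝ F (Φ y) z| ≤ 4 * ‖y‖ * ‖z‖ := by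
  obtain ⟨v, rfl⟩ := H.surj y z
  rw [H.chain, abs_mul, abs_of_pos (by norm_num : (0 : ℝ) < 2)]
  have h1 := abs_real_inner_le_norm y v
  have h2 := mul_le_mul_of_nonneg_left (H.low y v) (norm_nonneg y)
  linarith

theorem regular (H : Fam g ε F Φ D) {x : E} (hx : F x = 0) : fderiv ℝ F x ≠ 0 := by
  intro h0
  have h1 : ‖Φ.symm x‖ ^ 2 = 1 := by
    have := H.F_eq x
    linarith
  have h3 := H.chain (Φ.symm x) (Φ.symm x)
  rw [Homeomorph.apply_symm_apply, h0, real_inner_self_eq_norm_sq, h1] at h3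
  norm_num at h3

theorem hess_nonneg (H : Fam g ε F Φ D) (hg : ContDiff ℝ ∞ g) (hε0 : 0 < ε) {M : ℝ}
    (hM : ∀ y : E, ‖y‖ * ‖fderiv ℝ (fderiv ℝ g) y‖ ≤ M) (hεM : ε * M ≤ 1 / 2) (x w : E) :
    0 ≤ fderiv ℝ (fderiv ℝ F) x w w := by
  obtain ⟨y, rfl⟩ : ∃ y, Φ y = x := ⟨Φ.symm x, by rw [Homeomorph.apply_symm_apply]⟩
  obtain ⟨v, rfl⟩ := H.surj y w
  have hTd : HasFDerivAt (fderiv ℝ g) (fderiv ℝ (fderiv ℝ g) y) y :=
    ((hg.fderiv_right (m := ∞) (by simp)).differentiable (by simp) y).hasFDerivAt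
  generalize hT : fderiv ℝ (fderiv ℝ g) y = T at hTd
  have e2 : HasFDerivAt (fun x' => D x' v) (ε • ((ContinuousLinearMap.apply ℝ E v).comp T)) y := by
    have h1 : HasFDerivAt (fun x' => fderiv ℝ g x' v)
        ((ContinuousLinearMap.apply ℝ E v).comp T) y :=
      (ContinuousLinearMap.apply ℝ E v).hasFDerivAt.comp y hTd
    have h2 := (h1.const_smul ε).const_add v
    have h3 : (fun x' => D x' v) = fun x' => v + ε • fderiv ℝ g x' v :=
      funext fun x' => H.D_eq x' v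
    rw [h3]
    exact h2
  have e3 := (H.comp2 y).clm_apply e2
  have e4 : (fun x' => fderiv ℝ F (Φ x') (D x' v)) = fun x' => 2 * ⟪x', v⟫ :=
    funext fun x' => H.chain x' v
  rw [e4] at e3
  have e6 := congrArg (fun L : E →L[ℝ] ℝ => L v) (e3.unique (d_inner v y))
  have e7 : fderiv ℝ F (Φ y) (ε • T v v) + fderiv ℝ (fderiv ℝ F) (Φ y) (D y v) (D y v) =
      2 * ‖v‖ ^ 2 := by
    rw [← real_inner_self_eq_norm_sq]
    simpa using e6
  have e8 : |fderiv ℝ F (Φ y) (ε • T v v)| ≤ 2 * ‖v‖ ^ 2 := by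
    refine (H.gb y _).trans ?_
    rw [norm_smul, Real.norm_of_nonneg hε0.le]
    have h1 : ‖T v v‖ ≤ ‖T‖ * ‖v‖ * ‖v‖ := T.le_opNorm₂ v v
    have h2 : ‖y‖ * ‖T‖ ≤ M := by
      rw [← hT]
      exact hM y
    calc 4 * ‖y‖ * (ε * ‖T v v‖) ≤ 4 * ‖y‖ * (ε * (‖T‖ * ‖v‖ * ‖v‖)) :=
          mul_le_mul_of_nonneg_left (mul_le_mul_of_nonneg_left h1 hε0.le) (by positivity)
      _ = 4 * ε * (‖y‖ * ‖T‖) * ‖v‖ ^ 2 := by ring
      _ ≤ 4 * ε * M * ‖v‖ ^ 2 :=
          mul_le_mul_of_nonneg_right (mul_le_mul_of_nonneg_left h2 (by positivity)) (by positivity)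
      _ = 4 * (ε * M) * ‖v‖ ^ 2 := by ring
      _ ≤ 4 * (1 / 2) * ‖v‖ ^ 2 :=
          mul_le_mul_of_nonneg_right (mul_le_mul_of_nonneg_left hεM (by norm_num)) (by positivity)
      _ = 2 * ‖v‖ ^ 2 := by ring
  have e9 := (abs_le.1 e8).2
  linarith

end Fam

end Pool.Agent.H690.CA
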