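import Pool.Agent.H690.CA.Geo3

set_option autoImplicit false

/-!
# Umbilics and convexity
-/

namespace Pool.Agent.H690.CA

open Real Filter Topology Set
open Pool.Agent.H120R3.Ca (Rz Rz_inner)
open scoped ContDiff RealInnerProductSpace NNReal

variable {E : Type*} [NormedAddCommGroup E] [InnerProductSpace ℝ E] [FiniteDimensional ℝ E]

namespace Fam

variable {K : E → ℝ} {ε : ℝ} {F : E → ℝ} {Φ : E ≃ₜ E} {D : E → E →L[ℝ] E}

theorem inner (H : Fam (fun y => Rz E (fderiv ℝ K y)) ε F Φ D) (hK : ContDiff ℝ ∞ K) (x v u : E) :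
    ⟪D x v, u⟫ = ⟪v, u⟫ + ε * fderiv ℝ (fderiv ℝ K) x v u := by
  have hfKd : HasFDerivAt (fderiv ℝ K) (fderiv ℝ (fderiv ℝ K) x) x :=
    ((hK.fderiv_right (m := ∞) (by simp)).differentiable (by simp) x).hasFDerivAt
  have h1 : fderiv ℝ (fun y => Rz E (fderiv ℝ K y)) x = (Rz E).comp (fderiv ℝ (fderiv ℝ K) x) :=
    ((Rz E).hasFDerivAt.comp x hfKd).fderiv
  rw [H.D_eq, h1, inner_add_left, real_inner_smul_left]
  rw [ContinuousLinearMap.comp_apply, Rz_inner]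

theorem grad (H : Fam (fun y => Rz E (fderiv ℝ K y)) ε F Φ D) (hK : ContDiff ℝ ∞ K) {y : E}
    (hEuler : ∀ v, fderiv ℝ (fderiv ℝ K) y v y = 0) (w : E) : fderiv ℝ F (Φ y) w = 2 * ⟪y, w⟫ := by
  obtain ⟨v, rfl⟩ := H.surj y w
  rw [H.chain, real_inner_comm, real_inner_comm (D y v) y, H.inner hK, hEuler v]
  ring

theorem second (H : Fam (fun y => Rz E (fderiv ℝ K y)) ε F Φ D) (hK : ContDiff ℝ ∞ K) {y : E}
    (hEuler : ∀ᶠ x in 𝓝 y, ∀ v, fderiv ℝ (fderiv ℝ K) x v x = 0) (v u : E) :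
    fderiv ℝ (fderiv ℝ F) (Φ y) (D y v) u = 2 * ⟪v, u⟫ := by
  have e2 : HasFDerivAt (fun x' => fderiv ℝ F (Φ x') u)
      (((ContinuousLinearMap.apply ℝ ℝ u)).comp ((fderiv ℝ (fderiv ℝ F) (Φ y)).comp (D y))) y :=
    (ContinuousLinearMap.apply ℝ ℝ u).hasFDerivAt.comp y (H.comp2 y)
  have e4 : HasFDerivAt (fun x' => fderiv ℝ F (Φ x') u) (2 • (innerSL ℝ u)) y :=
    (d_inner u y).congr_of_eventuallyEq (by
      filter_upwards [hEuler] with x' hx' using H.grad hK hx' u)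
  have e5 := congrArg (fun L : E →L[ℝ] ℝ => L v) (e2.unique e4)
  simpa [real_inner_comm] using e5

theorem umb1 (H : Fam (fun y => Rz E (fderiv ℝ K y)) ε F Φ D) (hK : ContDiff ℝ ∞ K) (hε0 : 0 < ε)
    {y : E} (hEuler : ∀ᶠ x in 𝓝 y, ∀ v, fderiv ℝ (fderiv ℝ K) x v x = 0)
    (hu : ∃ c : ℝ, ∀ u v, fderiv ℝ F (Φ y) u = 0 → fderiv ℝ F (Φ y) v = 0 →
          fderiv ℝ (fderiv ℝ F) (Φ y) u v = c * ⟪u, v⟫) :
    ∃ c : ℝ, ∀ u v, ⟪u, y⟫ = 0 → ⟪v, y⟫ = 0 →
          fderiv ℝ (fderiv ℝ K) y u v = c * ⟪u, v⟫ := by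
  obtain ⟨c, hc⟩ := hu
  have hEy := hEuler.self_of_nhds
  have key : ∀ u v, ⟪u, y⟫ = 0 → ⟪v, y⟫ = 0 →
      2 * ⟪v, u⟫ = c * (⟪v, u⟫ + ε * fderiv ℝ (fderiv ℝ K) y v u) := by
    intro u v hu hv
    have k1 : fderiv ℝ F (Φ y) (D y v) = 0 := by
      rw [H.grad hK hEy, real_inner_comm, H.inner hK, hEy v, hv]; ring
    have k2 : fderiv ℝ F (Φ y) u = 0 := by
      rw [H.grad hK hEy, real_inner_comm, hu, mul_zero]
    have k3 := hc _ _ k1 k2
    rw [H.second hK hEuler, H.inner hK] at k3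
    exact k3
  by_cases hc0 : c = 0
  · refine ⟨0, fun u v hu hv => ?_⟩
    have h3 := key u u hu hu
    rw [hc0, zero_mul, real_inner_self_eq_norm_sq] at h3
    have h4 : ‖u‖ = 0 := by
      have := norm_nonneg u
      nlinarith
    rw [norm_eq_zero] at h4
    rw [h4]
    simp
  · refine ⟨(2 / c - 1) / ε, fun u v hu hv => ?_⟩
    have h3 := key v u hv hu
    field_simp
    linarith

theorem umb2 (H : Fam (fun y => Rz E (fderiv ℝ K y)) ε F Φ D) (hK : ContDiff ℝ ∞ K) {y : E}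
    (h1 : ‖y‖ = 1) (hEuler : ∀ᶠ x in 𝓝 y, ∀ v, fderiv ℝ (fderiv ℝ K) x v x = 0)
    (hu : ∃ c : ℝ, ∀ u v, ⟪u, y⟫ = 0 → ⟪v, y⟫ = 0 →
          fderiv ℝ (fderiv ℝ K) y u v = c * ⟪u, v⟫) :
    ∃ c : ℝ, ∀ u v, fderiv ℝ F (Φ y) u = 0 → fderiv ℝ F (Φ y) v = 0 →
          fderiv ℝ (fderiv ℝ F) (Φ y) u v = c * ⟪u, v⟫ := by
  obtain ⟨c, hc⟩ := hu
  have hEy := hEuler.self_of_nhds
  have hDv : ∀ v, ⟪v, y⟫ = 0 → D y v = (1 + ε * c) • v := by
    intro v hv
    refine ext_inner_right ℝ fun w => ?_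
    obtain ⟨a, w', hw, hw'⟩ : ∃ (a : ℝ) (w' : E), w = a • y + w' ∧ ⟪w', y⟫ = 0 := by
      refine ⟨⟪w, y⟫, w - ⟪w, y⟫ • y, by abel, ?_⟩
      rw [inner_sub_left, real_inner_smul_left, real_inner_self_eq_norm_sq, h1]
      ring
    rw [H.inner hK, hw, inner_add_right, map_add, real_inner_smul_right, map_smul, smul_eq_mul,
      hEy v, hv, hc v w' hv hw', real_inner_smul_left, inner_add_right, real_inner_smul_right, hv]
    ring
  refine ⟨2 / (1 + ε * c), fun u v hu _ => ?_⟩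
  rw [H.grad hK hEy] at hu
  have hu' : ⟪u, y⟫ = 0 := by
    rw [real_inner_comm]
    linarith
  have h3 := H.second hK hEuler u v
  rw [hDv u hu', map_smul, ContinuousLinearMap.smul_apply, smul_eq_mul] at h3
  by_cases h0 : 1 + ε * c = 0
  · have h4 : D y u = 0 := by rw [hDv u hu', h0, zero_smul]
    have h5 := H.low y u
    rw [h4, norm_zero, mul_zero] at h5
    have h6 : u = 0 := norm_eq_zero.1 (le_antisymm h5 (norm_nonneg _))
    rw [h6]
    simp
  · rw [div_mul_eq_mul_div, eq_div_iff h0]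
    linarith

theorem convex_le {g : E → E} (H : Fam g ε F Φ D)
    (h : ∀ x w, 0 ≤ fderiv ℝ (fderiv ℝ F) x w w) : Convex ℝ {x | F x ≤ 0} := by
  intro a ha b hb s t hs ht hst
  have hl : ∀ r : ℝ, HasDerivAt (fun r : ℝ => a + r • (b - a)) (b - a) r := fun r => by
    simpa using ((hasDerivAt_id r).smul_const (b - a)).const_add a
  have d1 : ∀ r : ℝ, HasDerivAt (fun r : ℝ => F (a + r • (b - a)))
      (fderiv ℝ F (a + r • (b - a)) (b - a)) r := fun r =>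
    (H.dF _).comp_hasDerivAt r (hl r)
  have d2 : ∀ r : ℝ, HasDerivAt (fun r : ℝ => fderiv ℝ F (a + r • (b - a)) (b - a))
      (fderiv ℝ (fderiv ℝ F) (a + r • (b - a)) (b - a) (b - a)) r := fun r => by
    have h1 : HasDerivAt (fun r : ℝ => fderiv ℝ F (a + r • (b - a)))
        (fderiv ℝ (fderiv ℝ F) (a + r • (b - a)) (b - a)) r :=
      (H.ddF _).comp_hasDerivAt r (hl r)
    have h2 := (ContinuousLinearMap.apply ℝ ℝ (b - a)).hasFDerivAt.comp_hasDerivAt r h1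
    exact h2
  have e1 : deriv (fun r : ℝ => F (a + r • (b - a))) =
      fun r => fderiv ℝ F (a + r • (b - a)) (b - a) := funext fun r => (d1 r).deriv
  have hcv : ConvexOn ℝ univ (fun r : ℝ => F (a + r • (b - a))) := by
    refine convexOn_univ_of_deriv2_nonneg (fun r => (d1 r).differentiableAt) ?_ ?_
    · rw [e1]
      exact fun r => (d2 r).differentiableAt
    · intro r
      simp only [Function.iterate_succ, Function.iterate_zero, Function.comp_apply, id_eq]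
      rw [e1, (d2 r).deriv]
      exact h _ _
  have h1 := hcv.2 (mem_univ (0 : ℝ)) (mem_univ (1 : ℝ)) hs ht hst
  simp only [smul_eq_mul, mul_zero, mul_one, zero_add, zero_smul, add_zero, one_smul] at h1
  have e2 : a + t • (b - a) = s • a + t • b := by
    have : s = 1 - t := by linarith
    rw [this]
    module
  rw [e2, add_sub_cancel] at h1
  have ha' : F a ≤ 0 := ha
  have hb' : F b ≤ 0 := hb
  have h2 := mul_nonneg hs (neg_nonneg.2 ha')
  have h3 := mul_nonneg ht (neg_nonneg.2 hb')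
  show F (s • a + t • b) ≤ 0
  linarith

end Fam

end Pool.Agent.H690.CA
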