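import Pool.Agent.H690.CA.Geo4

set_option autoImplicit false

/-!
# The family
-/

namespace Pool.Agent.H690.CA

open Real Filter Topology Set
open Pool.Agent.H120R3.Ca (Rz Rz_inner)
open scoped ContDiff RealInnerProductSpace NNReal

variable {E : Type*} [NormedAddCommGroup E] [InnerProductSpace ℝ E] [FiniteDimensional ℝ E]

omit [InnerProductSpace ℝ E] [FiniteDimensional ℝ E] in
theorem bdd0 {V : Type*} [NormedAddCommGroup V] {f : E → V} (hf : Continuous f)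
    (hc : HasCompactSupport f) : ∃ M : ℝ, 0 ≤ M ∧ ∀ y : E, ‖y‖ * ‖f y‖ ≤ M := by
  have h2 : HasCompactSupport (fun y : E => ‖y‖ * ‖f y‖) := hc.norm.mul_left
  obtain ⟨M, hM⟩ := (continuous_norm.mul hf.norm).bounded_above_of_compact_support h2
  have hM' : ∀ y : E, ‖y‖ * ‖f y‖ ≤ M := fun y => (le_abs_self _).trans (hM y)
  exact ⟨M, le_trans (by positivity) (hM' 0), hM'⟩

theorem bdd1 {V : Type*} [NormedAddCommGroup V] [NormedSpace ℝ V] {f : E → V} (hf : ContDiff ℝ ∞ f)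
    (hc : HasCompactSupport f) : ContDiff ℝ ∞ (fderiv ℝ f) ∧ HasCompactSupport (fderiv ℝ f) :=
  ⟨hf.fderiv_right (by simp), hc.fderiv ℝ⟩

theorem bdd {g : E → E} (hgs : ContDiff ℝ ∞ g) (hgc : HasCompactSupport g) :
    ∃ M : ℝ, 0 ≤ M ∧ ∀ y : E, ‖y‖ * ‖fderiv ℝ (fderiv ℝ g) y‖ ≤ M := by
  obtain ⟨h1, h2⟩ := bdd1 hgs hgc
  obtain ⟨h3, h4⟩ := bdd1 h1 h2
  exact bdd0 h3.continuous h4

theorem small {C M ε : ℝ} (hC : 0 ≤ C) (hM : 0 ≤ M)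
    (h : ε < min (1 / (2 * (C + 1))) (1 / (2 * (M + 1)))) (h0 : 0 < ε) :
    ε * C ≤ 1 / 2 ∧ ε * M ≤ 1 / 2 := by
  constructor
  · have h1 : ε ≤ 1 / (2 * (C + 1)) := h.le.trans (min_le_left _ _)
    rw [le_div_iff₀ (by positivity)] at h1
    linarith
  · have h1 : ε ≤ 1 / (2 * (M + 1)) := h.le.trans (min_le_right _ _)
    rw [le_div_iff₀ (by positivity)] at h1
    linarith

theorem family {K : E → ℝ} (hK : ContDiff ℝ ∞ K) (hKc : HasCompactSupport K)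
    (hE : ∀ y : E, ‖y‖ = 1 → ∀ᶠ x in 𝓝 y, ∀ v, fderiv ℝ (fderiv ℝ K) x v x = 0) :
    ∃ (g : E → E) (ε₀ : ℝ), ContDiff ℝ ∞ g ∧ HasCompactSupport g ∧ 0 < ε₀ ∧
    ∀ ε : ℝ, 0 < ε → ε < ε₀ → ∃ (Φ : E ≃ₜ E) (F : E → ℝ), (∀ y, Φ y = y + ε • g y) ∧
      ContDiff ℝ ∞ F ∧ (∀ y, F (Φ y) = ‖y‖ ^ 2 - 1) ∧ Convex ℝ {x | F x ≤ 0} ∧
      (∀ x, F x = 0 → fderiv ℝ F x ≠ 0) ∧
      ∀ y, ‖y‖ = 1 → (∃ c : ℝ, ∀ u v : E, fderiv ℝ F (Φ y) u = 0 → fderiv ℝ F (Φ y) v = 0 →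
          fderiv ℝ (fderiv ℝ F) (Φ y) u v = c * ⟪u, v⟫) →
        ∃ c : ℝ, ∀ u v, ⟪u, y⟫ = 0 → ⟪v, y⟫ = 0 →
          fderiv ℝ (fderiv ℝ K) y u v = c * ⟪u, v⟫ := by
  have hgs : ContDiff ℝ ∞ (fun y => Rz E (fderiv ℝ K y)) :=
    (Rz E).contDiff.comp (hK.fderiv_right (by simp))
  have hgc : HasCompactSupport (fun y => Rz E (fderiv ℝ K y)) :=
    (hKc.fderiv ℝ).comp_left (map_zero (Rz E))
  obtain ⟨C, hC⟩ := ContDiff.lipschitzWith_of_hasCompactSupport hgc hgs (by simp)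
  obtain ⟨M, hM0, hM⟩ := bdd hgs hgc
  have hC0 : (0 : ℝ) ≤ C := C.coe_nonneg
  refine ⟨fun y => Rz E (fderiv ℝ K y), min (1 / (2 * ((C : ℝ) + 1))) (1 / (2 * (M + 1))), hgs, hgc,
    lt_min (by positivity) (by positivity), fun ε hε0 hεlt => ?_⟩
  obtain ⟨hεC, hεM⟩ := small hC0 hM0 hεlt hε0
  obtain ⟨F, Φ, D, H⟩ := exists_fam hgs hC hε0 hεC
  exact ⟨Φ, F, H.Φ_eq, H.Fs, H.FΦ, H.convex_le (H.hess_nonneg hgs hε0 hM hεM),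
    fun x hx => H.regular hx, fun y hn hu => Fam.umb1 H hK hε0 (hE y hn) hu⟩

end Pool.Agent.H690.CA
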