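import Pool.Agent.H690.CA.Geo5
import Pool.Graph.R_seed8.H120R3.CaUmb

set_option autoImplicit false

/-!
# Convex surfaces near the round sphere with one umbilic
-/

namespace Pool.Agent.H690.CA

open Real Filter Topology Set
open Pool.Agent.H120R3.Ca (PD KKf KKf_cd KKf_cs KKf_euler KKf_fd2 construction nsq3 north south ext3 f2 E3)
open scoped ContDiff RealInnerProductSpace NNReal

theorem profile : ∃ K : E3 → ℝ, ContDiff ℝ ∞ K ∧ HasCompactSupport K ∧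
    (∀ y : E3, ‖y‖ = 1 → ∀ᶠ x in 𝓝 y, ∀ v, fderiv ℝ (fderiv ℝ K) x v x = 0) ∧
    ∀ y : E3, ‖y‖ = 1 → (∃ c : ℝ, ∀ u v, ⟪u, y⟫ = 0 → ⟪v, y⟫ = 0 →
          fderiv ℝ (fderiv ℝ K) y u v = c * ⟪u, v⟫) → y = f2 := by
  obtain ⟨G, Gx, Gy, Gxx, Gxy, Gyx, Gyy, r1, r2, v0, v1, g1, g2, g3, g4, g5, g6, g7, g8, g9, g10, g11⟩ :=
    construction
  have hPD : PD G r1 r2 v0 v1 := ⟨g1, g6, g7, g8, g9, g10, g11⟩
  refine ⟨KKf G v0 v1, KKf_cd hPD, KKf_cs G v0 v1, KKf_euler hPD, ?_⟩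
  rintro y hn ⟨c, hc⟩
  rw [KKf_fd2 G v0 v1 (by rw [hn]; norm_num) (by rw [hn]; norm_num)] at hc
  have hs := nsq3 y
  rw [hn] at hs
  rcases lt_or_ge (y 2) 0 with h2 | h2
  · exact absurd (south hPD hn h2 hc) (by simp)
  · obtain ⟨h0, h1⟩ := north hPD g2 g3 g4 g5 hn h2 hc
    rw [h0, h1] at hs
    have h3 : y 2 = 1 := by nlinarith
    apply ext3
    · rw [h0]; simp [f2]
    · rw [h1]; simp [f2]
    · rw [h3]; simp [f2]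

theorem main : ∃ (g : E3 → E3) (ε₀ : ℝ), ContDiff ℝ ∞ g ∧ HasCompactSupport g ∧ 0 < ε₀ ∧
    ∀ ε : ℝ, 0 < ε → ε < ε₀ → ∃ (Φ : E3 ≃ₜ E3) (F : E3 → ℝ), (∀ y, Φ y = y + ε • g y) ∧
      ContDiff ℝ ∞ F ∧ (∀ y, F (Φ y) = ‖y‖ ^ 2 - 1) ∧ Convex ℝ {x | F x ≤ 0} ∧
      (∀ x, F x = 0 → fderiv ℝ F x ≠ 0) ∧
      ∀ y, ‖y‖ = 1 → (∃ c : ℝ, ∀ u v : E3, fderiv ℝ F (Φ y) u = 0 → fderiv ℝ F (Φ y) v = 0 →
          fderiv ℝ (fderiv ℝ F) (Φ y) u v = c * ⟪u, v⟫) → y = f2 := by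
  obtain ⟨K, hK, hKc, hE, hf⟩ := profile
  obtain ⟨g, ε₀, h1, h2, h3, h4⟩ := family hK hKc hE
  refine ⟨g, ε₀, h1, h2, h3, fun ε hε hε' => ?_⟩
  obtain ⟨Φ, F, k1, k2, k3, k4, k5, k6⟩ := h4 ε hε hε'
  exact ⟨Φ, F, k1, k2, k3, k4, k5, fun y hy hu => hf y hy (k6 y hy hu)⟩

end Pool.Agent.H690.CA
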